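import Pool.Agent.H586R3.TP.Stmts

set_option autoImplicit false

open Finset

namespace H586TP.TaskA

/-- packing of the members of `s` -/
def PacksOn {n : ℕ} {ι : Type} (τ : ι → Ty n) (s : Finset ι) : Prop :=
  ∃ (φ : ι → (Fin n ↪ Fin (2 * n - 1))) (β : ι → Fin n → ι),
    (∀ i ∈ s, Function.Injective (β i)) ∧ (∀ i ∈ s, ∀ v, β i v ∈ s) ∧
    ∀ i ∈ s, ∀ j ∈ s, ∀ v w, i ≠ j → β i v = β j w →
      Disjoint (((τ i).N v).map (φ i)) (((τ j).N w).map (φ j))

/-- a default embedding -/
def emb0 {n : ℕ} (hn : 1 ≤ n) : Fin n ↪ Fin (2 * n - 1) := Fin.castLEEmb (by omega)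

lemma packsOn_empty {n : ℕ} (hn : 1 ≤ n) {ι : Type} (τ : ι → Ty n) : PacksOn τ ∅ :=
  ⟨fun _ => emb0 hn, fun i _ => i, by simp, by simp, by simp⟩

lemma packsOn_union {n : ℕ} {ι : Type} [DecidableEq ι] (τ : ι → Ty n) (s s' : Finset ι)
    (hd : Disjoint s s') (h : PacksOn τ s) (h' : PacksOn τ s') : PacksOn τ (s ∪ s') := by
  obtain ⟨φ, β, h1, h2, h3⟩ := h
  obtain ⟨φ', β', h1', h2', h3'⟩ := h'
  have hns : ∀ i ∈ s', i ∉ s := fun i hi hi' => (Finset.disjoint_left.1 hd) hi' hi
  refine ⟨fun i => if i ∈ s then φ i else φ' i, fun i => if i ∈ s then β i else β' i,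
    ?_, ?_, ?_⟩
  · intro i hi
    rcases Finset.mem_union.1 hi with hi | hi
    · simp only [if_pos hi]
      exact h1 i hi
    · simp only [if_neg (hns i hi)]
      exact h1' i hi
  · intro i hi v
    rcases Finset.mem_union.1 hi with hi | hi
    · simp only [if_pos hi]
      exact Finset.mem_union_left _ (h2 i hi v)
    · simp only [if_neg (hns i hi)]
      exact Finset.mem_union_right _ (h2' i hi v)
  · intro i hi j hj v w hij hb
    rcases Finset.mem_union.1 hi with hi | hi <;> rcases Finset.mem_union.1 hj with hj | hj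
    · simp only [if_pos hi, if_pos hj] at hb ⊢
      exact h3 i hi j hj v w hij hb
    · simp only [if_pos hi, if_neg (hns j hj)] at hb ⊢
      exact absurd (hb ▸ h2 i hi v) (hns _ (h2' j hj w))
    · simp only [if_pos hj, if_neg (hns i hi)] at hb ⊢
      exact absurd (hb ▸ h2 j hj w) (hns _ (hb ▸ h2' i hi v))
    · simp only [if_neg (hns i hi), if_neg (hns j hj)] at hb ⊢
      exact h3' i hi j hj v w hij hb

lemma packsOn_of {n : ℕ} (hn : 1 ≤ n) {ι κ : Type} [Fintype κ] (τ : ι → Ty n) (σ : κ → Ty n)
    (hσ : Packs n σ) (e : κ ↪ ι) (he : ∀ a, τ (e a) = σ a) : PacksOn τ (univ.map e) := by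
  obtain ⟨φ, β, h⟩ := hσ
  have hφ : ∀ a, Function.extend e φ (fun _ => emb0 hn) (e a) = φ a := fun a =>
    e.injective.extend_apply _ _ a
  have hβ : ∀ a, Function.extend e (fun a v => e (β a v)) (fun i _ => i) (e a) =
      fun v => e (β a v) := fun a => e.injective.extend_apply _ _ a
  refine ⟨Function.extend e φ (fun _ => emb0 hn),
    Function.extend e (fun a v => e (β a v)) (fun i _ => i), ?_, ?_, ?_⟩
  · intro i hi
    obtain ⟨a, _, rfl⟩ := Finset.mem_map.1 hi
    rw [hβ]
    intro v w hvw
    exact (β a).injective (e.injective hvw)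
  · intro i hi v
    obtain ⟨a, _, rfl⟩ := Finset.mem_map.1 hi
    rw [hβ]
    exact Finset.mem_map_of_mem _ (Finset.mem_univ _)
  · intro i hi j hj v w hij hb
    obtain ⟨a, _, rfl⟩ := Finset.mem_map.1 hi
    obtain ⟨b, _, rfl⟩ := Finset.mem_map.1 hj
    rw [hβ, hβ] at hb
    rw [hφ, hφ, he, he]
    exact h a b v w (fun hab => hij (by rw [hab])) (e.injective hb)

lemma packs_of_univ {n : ℕ} {ι : Type} [Fintype ι] (τ : ι → Ty n) (h : PacksOn τ univ) :
    Packs n τ := by
  obtain ⟨φ, β, h1, _, h3⟩ := h
  refine ⟨φ, fun i => ⟨β i, h1 i (Finset.mem_univ _)⟩, ?_⟩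
  intro i j v w hij hb
  exact h3 i (Finset.mem_univ _) j (Finset.mem_univ _) v w hij hb

instance {n : ℕ} : Finite (Ty n) := by
  refine Finite.of_injective (fun t : Ty n => t.N) ?_
  intro t t' h
  cases t
  cases t'
  simp only at h
  subst h
  rfl

lemma packsOn_const (h1 : L1) {n : ℕ} (hn : 2 ≤ n) : ∃ Q : ℕ, ∀ {ι : Type} [DecidableEq ι]
    (τ : ι → Ty n) (t : Ty n) (s : Finset ι), (∀ i ∈ s, τ i = t) → Q ≤ s.card →
    PacksOn τ s := by
  classical
  have := Fintype.ofFinite (Ty n)
  choose K hK using h1 n hn
  refine ⟨univ.sup K, ?_⟩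
  intro ι _ τ t s hs hQ
  have hk : K t ≤ s.card := (Finset.le_sup (Finset.mem_univ t)).trans hQ
  have hp := hK t s.card hk
  have h := packsOn_of (by omega) τ (fun _ : Fin s.card => t) hp
    (s.equivFin.symm.toEmbedding.trans (Function.Embedding.subtype _)) (fun a => by
      exact hs _ (s.equivFin.symm a).2)
  have hu : univ.map (s.equivFin.symm.toEmbedding.trans (Function.Embedding.subtype _)) = s := by
    ext i
    simp only [Finset.mem_map, Finset.mem_univ, true_and]
    constructor
    · rintro ⟨a, rfl⟩
      exact (s.equivFin.symm a).2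
    · intro hi
      refine ⟨s.equivFin ⟨i, hi⟩, ?_⟩
      simp
  rwa [hu] at h

lemma packsOn_one (h2 : L2) {n : ℕ} (hn : 2 ≤ n) : ∃ qm : ℕ, ∀ {ι : Type} [DecidableEq ι]
    (τ : ι → Ty n) (t : Ty n) (a : ι) (B : Finset ι), (∀ i ∈ B, τ i = t) → qm ≤ B.card →
    a ∉ B → ∃ D ⊆ B, D.card ≤ qm ∧ PacksOn τ (insert a D) := by
  classical
  have := Fintype.ofFinite (Ty n)
  choose q hq using h2 n hn
  refine ⟨univ.sup (fun p : Ty n × Ty n => q p.1 p.2), ?_⟩
  intro ι _ τ t a B hB hc ha
  have hk : q (τ a) t ≤ univ.sup (fun p : Ty n × Ty n => q p.1 p.2) :=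
    Finset.le_sup (f := fun p : Ty n × Ty n => q p.1 p.2) (Finset.mem_univ (τ a, t))
  obtain ⟨D, hD, hDc⟩ := Finset.exists_subset_card_eq (hk.trans hc)
  refine ⟨D, hD, hDc.le.trans hk, ?_⟩
  have hp := hq (τ a) t
  rw [← hDc] at hp
  have haD : a ∉ D := fun h => ha (hD h)
  let e : Option (Fin D.card) ↪ ι :=
    ⟨fun o => o.elim a (fun i => (D.equivFin.symm i : ι)), by
      intro x y hxy
      cases x with
      | none =>
        cases y with
        | none => rfl
        | some y =>
          exact absurd (show a ∈ D by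
            have h : a = (D.equivFin.symm y : ι) := hxy
            rw [h]; exact (D.equivFin.symm y).2) haD
      | some x =>
        cases y with
        | none =>
          exact absurd (show a ∈ D by
            have h : (D.equivFin.symm x : ι) = a := hxy
            rw [← h]; exact (D.equivFin.symm x).2) haD
        | some y =>
          have h : (D.equivFin.symm x : ι) = (D.equivFin.symm y : ι) := hxy
          rw [D.equivFin.symm.injective (Subtype.ext h)]⟩
  have h := packsOn_of (by omega) τ
    (fun i : Option (Fin D.card) => i.elim (τ a) (fun _ => t)) hp e (fun x => by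
      cases x with
      | none => rfl
      | some x => exact hB _ (hD (D.equivFin.symm x).2))
  have hu : univ.map e = insert a D := by
    ext i
    simp only [Finset.mem_map, Finset.mem_univ, true_and, Finset.mem_insert]
    constructor
    · rintro ⟨x, rfl⟩
      cases x with
      | none => exact Or.inl rfl
      | some x => exact Or.inr (D.equivFin.symm x).2
    · rintro (rfl | hi)
      · exact ⟨none, rfl⟩
      · refine ⟨some (D.equivFin ⟨i, hi⟩), ?_⟩
        show ((D.equivFin.symm (D.equivFin ⟨i, hi⟩) : D) : ι) = i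
        simp
  rwa [hu] at h

lemma absorb {n : ℕ} (hn : 1 ≤ n) (qm : ℕ) {ι : Type} [DecidableEq ι] (τ : ι → Ty n) (t : Ty n)
    (hone : ∀ (a : ι) (B : Finset ι), (∀ i ∈ B, τ i = t) → qm ≤ B.card →
      a ∉ B → ∃ D ⊆ B, D.card ≤ qm ∧ PacksOn τ (insert a D))
    (B : Finset ι) (hB : ∀ i ∈ B, τ i = t) (A : Finset ι) : Disjoint A B →
    A.card * qm ≤ B.card → ∃ C ⊆ B, C.card ≤ A.card * qm ∧ PacksOn τ (A ∪ C) := by
  induction A using Finset.induction_on with
  | empty =>
    intro _ _
    exact ⟨∅, Finset.empty_subset _, by simp, by simpa using packsOn_empty hn τ⟩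
  | insert a A haA ih =>
    intro hd hc
    rw [Finset.card_insert_of_notMem haA, add_mul, one_mul] at hc
    have hd' : Disjoint A B := Finset.disjoint_of_subset_left (Finset.subset_insert _ _) hd
    have haB : a ∉ B := Finset.disjoint_left.1 hd (Finset.mem_insert_self _ _)
    obtain ⟨C, hCB, hCc, hC⟩ := ih hd' (by omega)
    have hBC : qm ≤ (B \ C).card := by
      have := Finset.card_sdiff_add_card_eq_card hCB
      omega
    obtain ⟨D, hD, hDc, hDp⟩ := hone a (B \ C) (fun i hi => hB i (Finset.mem_sdiff.1 hi).1) hBC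
      (fun h => haB (Finset.mem_sdiff.1 h).1)
    refine ⟨C ∪ D, Finset.union_subset hCB (hD.trans Finset.sdiff_subset), ?_, ?_⟩
    · rw [Finset.card_insert_of_notMem haA, add_mul, one_mul]
      have := Finset.card_union_le C D
      omega
    · have hdis : Disjoint (A ∪ C) (insert a D) := by
        rw [Finset.disjoint_left]
        intro x hx hx'
        rcases Finset.mem_insert.1 hx' with rfl | hx'
        · rcases Finset.mem_union.1 hx with hx | hx
          · exact haA hx
          · exact haB (hCB hx)
        · have hxs := Finset.mem_sdiff.1 (hD hx')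
          rcases Finset.mem_union.1 hx with hx | hx
          · exact Finset.disjoint_left.1 hd' hx hxs.1
          · exact hxs.2 hx
      have := packsOn_union τ _ _ hdis hC hDp
      have heq : A ∪ C ∪ insert a D = insert a A ∪ (C ∪ D) := by
        ext x
        simp only [Finset.mem_union, Finset.mem_insert]
        tauto
      rwa [heq] at this

theorem taskA : TaskA := by
  classical
  intro h1 h2 n hn
  by_cases hn1 : n = 1
  · subst hn1
    refine ⟨0, fun k _ τ => ⟨fun _ => emb0 le_rfl, fun i => ⟨fun _ => i, fun v w _ =>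
      Subsingleton.elim _ _⟩, ?_⟩⟩
    intro i j v w hij hb
    exact absurd hb hij
  · have hn2 : 2 ≤ n := by omega
    have := Fintype.ofFinite (Ty n)
    obtain ⟨Q, hQ⟩ := packsOn_const h1 hn2
    obtain ⟨qm, hqm⟩ := packsOn_one h2 hn2
    set T := Fintype.card (Ty n) with hT
    refine ⟨T * (T * Q * qm + Q) + 1, ?_⟩
    intro k hk τ
    apply packs_of_univ
    -- the most frequent type
    have hpig : ∃ t : Ty n, T * Q * qm + Q ≤ (univ.filter (fun i => τ i = t)).card := by
      by_contra hcon
      push Not at hcon
      have h3 := Finset.card_eq_sum_card_fiberwise (s := (univ : Finset (Fin k)))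
        (t := (univ : Finset (Ty n))) (f := τ) (fun i _ => Finset.mem_coe.2 (Finset.mem_univ _))
      rw [Finset.card_univ, Fintype.card_fin] at h3
      have h4 : ∑ b : Ty n, (univ.filter (fun i => τ i = b)).card ≤
          ∑ _b : Ty n, (T * Q * qm + Q) := Finset.sum_le_sum fun b _ => (hcon b).le
      rw [Finset.sum_const, Finset.card_univ, smul_eq_mul, ← hT] at h4
      omega
    obtain ⟨t, ht⟩ := hpig
    set B := univ.filter (fun i => τ i = t) with hBd
    set A := univ.filter (fun i : Fin k => (univ.filter (fun j => τ j = τ i)).card < Q) with hAd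
    have hdAB : Disjoint A B := by
      rw [Finset.disjoint_left]
      intro i hiA hiB
      have h3 := (Finset.mem_filter.1 hiA).2
      have h4 := (Finset.mem_filter.1 hiB).2
      rw [h4] at h3
      have h5 : B.card < Q := h3
      omega
    have hAc : A.card ≤ T * Q := by
      have h3 := Finset.card_le_mul_card_image (f := τ) A Q (by
        intro b hb
        obtain ⟨i, hi, rfl⟩ := Finset.mem_image.1 hb
        have h4 := (Finset.mem_filter.1 hi).2
        refine le_trans (Finset.card_le_card ?_) h4.le
        intro j hj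
        have := (Finset.mem_filter.1 hj).2
        exact Finset.mem_filter.2 ⟨Finset.mem_univ _, this⟩)
      have h5 : (A.image τ).card ≤ T := Finset.card_le_univ _
      calc A.card ≤ Q * (A.image τ).card := h3
        _ ≤ Q * T := Nat.mul_le_mul_left _ h5
        _ = T * Q := Nat.mul_comm _ _
    have hAq : A.card * qm ≤ T * Q * qm := Nat.mul_le_mul_right _ hAc
    obtain ⟨C, hCB, hCc, hC⟩ := absorb hn qm τ t (fun a B => hqm τ t a B) B
      (fun i hi => (Finset.mem_filter.1 hi).2) A hdAB (by omega)
    -- the rest
    set R := univ \ (A ∪ C) with hR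
    have hfib : ∀ t' : Ty n, PacksOn τ (R.filter (fun i => τ i = t')) := by
      intro t'
      by_cases hempty : (R.filter (fun i => τ i = t')) = ∅
      · rw [hempty]; exact packsOn_empty hn τ
      · refine hQ τ t' _ (fun i hi => (Finset.mem_filter.1 hi).2) ?_
        by_cases htt : t' = t
        · subst htt
          have h3 : R.filter (fun i => τ i = t') = B \ C := by
            ext i
            simp only [hR, Finset.mem_filter, Finset.mem_sdiff, Finset.mem_univ, true_and,
              Finset.mem_union, not_or, hBd]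
            constructor
            · rintro ⟨⟨_, h4⟩, h5⟩
              exact ⟨h5, h4⟩
            · rintro ⟨h5, h4⟩
              refine ⟨⟨fun h6 => ?_, h4⟩, h5⟩
              exact Finset.disjoint_left.1 hdAB h6 (Finset.mem_filter.2 ⟨Finset.mem_univ _, h5⟩)
          rw [h3]
          have := Finset.card_sdiff_add_card_eq_card hCB
          omega
        · obtain ⟨i, hi⟩ := Finset.nonempty_iff_ne_empty.2 hempty
          have hi1 := (Finset.mem_filter.1 hi).1
          have hi2 := (Finset.mem_filter.1 hi).2
          have hiA : i ∉ A := fun h => (Finset.mem_sdiff.1 hi1).2 (Finset.mem_union_left _ h)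
          have hbig : Q ≤ (univ.filter (fun j => τ j = t')).card := by
            by_contra hlt
            apply hiA
            rw [hAd, Finset.mem_filter, hi2]
            exact ⟨Finset.mem_univ _, not_le.1 hlt⟩
          have h3 : R.filter (fun i => τ i = t') = univ.filter (fun j => τ j = t') := by
            ext j
            simp only [hR, Finset.mem_filter, Finset.mem_sdiff, Finset.mem_univ, true_and,
              Finset.mem_union, not_or]
            constructor
            · rintro ⟨_, h5⟩
              exact h5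
            · intro h5
              refine ⟨⟨fun h6 => ?_, fun h6 => ?_⟩, h5⟩
              · have h7 := (Finset.mem_filter.1 h6).2
                rw [h5] at h7
                omega
              · have h7 := (Finset.mem_filter.1 (hCB h6)).2
                exact htt (h5.symm.trans h7)
          rw [h3]
          exact hbig
    have hall : ∀ 𝒯 : Finset (Ty n), PacksOn τ (R.filter (fun i => τ i ∈ 𝒯)) := by
      intro 𝒯
      induction 𝒯 using Finset.induction_on with
      | empty =>
        have : R.filter (fun i => τ i ∈ (∅ : Finset (Ty n))) = ∅ := by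
          ext i; simp
        rw [this]
        exact packsOn_empty hn τ
      | insert b 𝒯 hb ih =>
        have h3 : R.filter (fun i => τ i ∈ insert b 𝒯) =
            R.filter (fun i => τ i = b) ∪ R.filter (fun i => τ i ∈ 𝒯) := by
          ext i
          simp only [Finset.mem_filter, Finset.mem_insert, Finset.mem_union]
          tauto
        rw [h3]
        refine packsOn_union τ _ _ ?_ (hfib b) ih
        rw [Finset.disjoint_left]
        intro i hi hi'
        have h4 := (Finset.mem_filter.1 hi).2
        have h5 := (Finset.mem_filter.1 hi').2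
        rw [h4] at h5
        exact hb h5
    have hRp : PacksOn τ R := by
      have := hall univ
      have h3 : R.filter (fun i => τ i ∈ (univ : Finset (Ty n))) = R := by
        ext i; simp
      rwa [h3] at this
    have hfin := packsOn_union τ (A ∪ C) R Finset.disjoint_sdiff hC hRp
    have heq : A ∪ C ∪ R = univ := by
      rw [hR, Finset.union_sdiff_self_eq_union]
      exact Finset.union_eq_right.2 (Finset.subset_univ _)
    rwa [heq] at hfin

end H586TP.TaskA
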